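import Pool.Agent.W221.NS.Stm

set_option autoImplicit false
set_option linter.unusedVariables false

/-! Scaling to viscosity one. -/

open MeasureTheory Set
open scoped ContDiff

namespace Pool.Agent.W930.MD

open H459R3.NS W221.NS

lemma pd_const_mul (c : ℝ) (j : Fin 3) (f : V → ℝ) (x : V) :
    pd j (fun y => c * f y) x = c * pd j f x := by
  unfold pd
  have h : (fun y => c * f y) = c • f := rfl
  rw [h, fderiv_const_smul_field]
  rfl

lemma deriv_scale (ν : ℝ) (f : ℝ → ℝ) (t : ℝ) :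
    deriv (fun s => ν⁻¹ * f (s / ν)) t = ν⁻¹ * (ν⁻¹ * deriv f (t / ν)) := by
  rw [deriv_const_mul_field]
  have h : (fun s : ℝ => f (s / ν)) = fun s : ℝ => f (ν⁻¹ * s) := by
    funext s
    rw [div_eq_inv_mul]
  rw [h, deriv_comp_mul_left, smul_eq_mul, div_eq_inv_mul]

theorem t_SCALE : S_SCALE := by
  intro ν T u p hν hT h
  have hmaps : MapsTo (fun z : ℝ × V => (z.1 / ν, z.2)) (Ico 0 (ν * T) ×ˢ (univ : Set V))
      (Ico 0 T ×ˢ (univ : Set V)) := by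
    rintro ⟨t, x⟩ ⟨ht, -⟩
    refine ⟨⟨div_nonneg ht.1 hν.le, ?_⟩, mem_univ _⟩
    rw [div_lt_iff₀ hν, mul_comm T ν]
    exact ht.2
  have hlin : ContDiff ℝ ∞ (fun z : ℝ × V => (z.1 / ν, z.2)) := by fun_prop
  have hdiv : ∀ t, t ∈ Ico 0 (ν * T) → t / ν ∈ Ico 0 T := by
    intro t ht
    refine ⟨div_nonneg ht.1 hν.le, ?_⟩
    rw [div_lt_iff₀ hν, mul_comm T ν]
    exact ht.2
  refine ⟨?_, ?_, ?_, ?_, ?_, ?_⟩
  · have h1 := (h.smooth_u.comp hlin.contDiffOn hmaps).const_smul ν⁻¹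
    exact h1
  · have h1 := (h.smooth_p.comp hlin.contDiffOn hmaps).const_smul ((ν ^ 2)⁻¹)
    exact h1
  · intro t ht i x
    show ν⁻¹ • u (t / ν) (x + Pi.single i 1) = ν⁻¹ • u (t / ν) x
    rw [h.per_u _ (hdiv t ht) i x]
  · intro t ht i x
    show (ν ^ 2)⁻¹ * p (t / ν) (x + Pi.single i 1) = (ν ^ 2)⁻¹ * p (t / ν) x
    rw [h.per_p _ (hdiv t ht) i x]
  · intro t ht x
    have h1 := h.divfree _ (hdiv t ht) x
    have h2 : ∀ i, pd i (fun y => (ν⁻¹ • u (t / ν) y) i) x =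
        ν⁻¹ * pd i (fun y => u (t / ν) y i) x := fun i =>
      pd_const_mul ν⁻¹ i (fun y => u (t / ν) y i) x
    rw [Finset.sum_congr rfl fun i _ => h2 i, ← Finset.mul_sum, h1, mul_zero]
  · intro t ht x i
    have ht' : t / ν ∈ Ioo 0 T := by
      refine ⟨div_pos ht.1 hν, ?_⟩
      rw [div_lt_iff₀ hν, mul_comm T ν]
      exact ht.2
    have h1 := h.momentum _ ht' x i
    have e1 : deriv (fun s => (ν⁻¹ • u (s / ν) x) i) t =
        ν⁻¹ * (ν⁻¹ * deriv (fun s => u s x i) (t / ν)) :=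
      deriv_scale ν (fun s => u s x i) t
    have e2 : ∀ j, pd j (fun y => (ν⁻¹ • u (t / ν) y) i) =
        fun x => ν⁻¹ * pd j (fun y => u (t / ν) y i) x := by
      intro j
      funext x
      exact pd_const_mul ν⁻¹ j (fun y => u (t / ν) y i) x
    have e3 : ∀ j, pd j (pd j (fun y => (ν⁻¹ • u (t / ν) y) i)) x =
        ν⁻¹ * pd j (pd j (fun y => u (t / ν) y i)) x := by
      intro j
      rw [e2 j]
      exact pd_const_mul ν⁻¹ j _ x
    have e4 : pd i (fun x => (ν ^ 2)⁻¹ * p (t / ν) x) x = (ν ^ 2)⁻¹ * pd i (p (t / ν)) x :=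
      pd_const_mul _ i _ x
    rw [e1, e4]
    simp_rw [e3, e2, Pi.smul_apply, smul_eq_mul]
    rw [← Finset.mul_sum, one_mul]
    have e5 : ∑ j, ν⁻¹ * u (t / ν) x j * (ν⁻¹ * pd j (fun y => u (t / ν) y i) x) =
        ν⁻¹ * (ν⁻¹ * ∑ j, u (t / ν) x j * pd j (fun y => u (t / ν) y i) x) := by
      rw [Finset.mul_sum, Finset.mul_sum]
      refine Finset.sum_congr rfl fun j _ => ?_
      ring
    rw [e5]
    have e6 : (ν ^ 2)⁻¹ = ν⁻¹ * ν⁻¹ := by
      rw [sq, mul_inv]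
    have e7 : ν⁻¹ * ν⁻¹ * ν = ν⁻¹ := by
      rw [mul_assoc, inv_mul_cancel₀ hν.ne', mul_one]
    rw [e6]
    have h2 := congrArg (fun z => ν⁻¹ * ν⁻¹ * z) h1
    simp only [mul_add, mul_sub] at h2
    rw [← mul_assoc, ← mul_assoc, h2, ← mul_assoc, e7]

end Pool.Agent.W930.MD
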